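import Pool.Agent.H83.Cs3

namespace Pool.Agent.Results.MP_00bf54_lc.Bound

open Ordinal Pool.Agent.H83.Cs

theorem result : Set.BijOn rk Set.univ (Set.Iio (ω ^ ω)) ∧
    ∃ f : ℕ → ℕ, Computable f ∧ ∀ a b : ℕ, IsoCS a b ↔ EMin (f a) (f b) :=
  ⟨rk_bij, main⟩

end Pool.Agent.Results.MP_00bf54_lc.Bound
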